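import Pool.Agent.H78.RigidAlg

/-!
# MP_92f261 : the rigid module over a local symmetric algebra, sharp form

The algebra of `Pool/Agent/H78/RigidAlg.lean` has dimension 12 and its radical `J` satisfies
`J⁴ = 0`; the module is cyclic with one relation.
-/

set_option autoImplicit false

universe u

namespace Pool.Agent.H33.RL

open CategoryTheory Pool.Agent.H78.RigidAlg

variable {k : Type u} [Field k]

private lemma c_zero {a : Alg k} (ha : a ∈ Ring.jacobson (Alg k)) : a.c = 0 := by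
  by_contra h
  have h1 : Ring.jacobson (Alg k) = ⊤ :=
    Ideal.eq_top_of_isUnit_mem _ ha (Alg.isUnit_of_c_ne_zero a h)
  exact (Ring.jacobson_lt_top (Alg k)).ne h1

private lemma mul4 (a b c d : Alg k) (ha : a.c = 0) (hb : b.c = 0) (hc : c.c = 0) (hd : d.c = 0) :
    a * b * c * d = 0 := by
  ext <;> simp [ha, hb, hc, hd]

private lemma xA_eq : (Alg.xA : Submodule (Alg k)ᵐᵒᵖ (Alg k)) =
    Submodule.span (Alg k)ᵐᵒᵖ {(Alg.ex : Alg k)} := by
  ext y
  rw [Alg.mem_xA_iff, Submodule.mem_span_singleton]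
  constructor
  · rintro ⟨z, rfl⟩
    exact ⟨MulOpposite.op z, rfl⟩
  · rintro ⟨z, rfl⟩
    exact ⟨z.unop, rfl⟩

private lemma dim : Module.finrank k (Alg k) = 12 := by
  have h := LinearEquiv.finrank_eq (Alg.coord (k := k))
  rw [h]
  simp

/-- Sharp form: dimension 12, `J⁴ = 0`, a cyclic module with one relation. -/
theorem main (k : Type u) [Field k] :
    ∃ (A : Type u) (_ : Ring A) (_ : Algebra k A),
      Module.Finite k A ∧ Module.finrank k A = 12 ∧ IsLocalRing A ∧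
      (∀ a ∈ Ring.jacobson A, ∀ b ∈ Ring.jacobson A, ∀ c ∈ Ring.jacobson A,
        ∀ d ∈ Ring.jacobson A, a * b * c * d = 0) ∧
      (∃ e : A ≃ₗ[k] Module.Dual k A, ∀ a x b y : A, e (a * x * b) y = e x (b * y * a)) ∧
      Module.Injective Aᵐᵒᵖ A ∧
      ∃ (x : A) (M : ModuleCat.{u} Aᵐᵒᵖ),
        Nonempty (M ≃ₗ[Aᵐᵒᵖ] (A ⧸ Submodule.span Aᵐᵒᵖ {x})) ∧
        Module.Finite Aᵐᵒᵖ M ∧ ¬ Module.Projective Aᵐᵒᵖ M ∧
        Subsingleton (Abelian.Ext M M 1) := by
  refine ⟨Alg k, inferInstance, inferInstance, inferInstance, dim, Alg.isLocal, ?_,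
    Alg.isSymmetric, injective_of_symmetric (k := k) Alg.isSymmetric, Alg.ex,
    ModuleCat.of (Alg k)ᵐᵒᵖ (Alg.M k), ?_, ?_, Alg.not_projective, ?_⟩
  · intro a ha b hb c hc d hd
    exact mul4 a b c d (c_zero ha) (c_zero hb) (c_zero hc) (c_zero hd)
  · exact ⟨Submodule.quotEquivOfEq _ _ xA_eq⟩
  · have : Module.Finite (Alg k)ᵐᵒᵖ (Alg k) := Module.Finite.equiv Alg.regEquiv
    exact Module.Finite.of_surjective
      (Submodule.mkQ (Alg.xA : Submodule (Alg k)ᵐᵒᵖ (Alg k))) (Submodule.mkQ_surjective _)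
  · exact ext_subsingleton _ Alg.extend

end Pool.Agent.H33.RL
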